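import Mathlib
import Pool.Agent.Lib.H44I.MarkedC

set_option autoImplicit false

namespace Pool.Agent.Results.MP_7a8588_lc.JustNonResidual

open Pool.Agent.H44I

/-- There is an isomorphism-invariant property `P` of groups that is Borel in the space of
`n`-generated marked groups for every `n`, while for every `n ≥ 3` neither the set of the
just-non-`P` groups nor the set of the residually `P` groups is Borel in the space of `n`-generated
marked groups. -/
theorem result :
    ∃ P : GroupProperty, IsoInvariant P ∧ (∀ n : ℕ, BorelIn n P) ∧
      ∀ n : ℕ, 3 ≤ n → ¬ BorelIn n (JustNon P) ∧ ¬ BorelIn n (Residually P) :=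
  exists_property

end Pool.Agent.Results.MP_7a8588_lc.JustNonResidual
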